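import Pool.Agent.Run7.h601.ZN.Stm

/-!
# Project ZN, piece DEG: the degree formula
-/

set_option autoImplicit false

namespace Run7.h313.ZN

open Finset
open Pool.Agent.Run7.h601.ZN

lemma cnt_eq_sum {n : ℕ} {ι : Type} [DecidableEq ι] (w : Fin n → ι) (i : ι) :
    cnt w i = ∑ x, if w x = i then 1 else 0 := by
  unfold cnt; rw [card_filter]

lemma cnt_cons {n : ℕ} {ι : Type} [DecidableEq ι] (a : ι) (w : Fin n → ι) (i : ι) :
    cnt (Fin.cons a w : Fin (n + 1) → ι) i = (if a = i then 1 else 0) + cnt w i := by
  rw [cnt_eq_sum, cnt_eq_sum, Fin.sum_univ_succ]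
  simp

lemma sum_cnt {n : ℕ} {k : ℕ} (w : Fin n → Fin k) : ∑ i, cnt w i = n := by
  simp only [cnt_eq_sum]
  rw [sum_comm]
  simp

/-- the number of words with given content -/
lemma words_card {k : ℕ} : ∀ (n : ℕ) (A : Fin k → ℕ), ∑ i, A i = n →
    (univ.filter (fun w : Fin n → Fin k => ∀ i, cnt w i = A i)).card * ∏ i, (A i).factorial =
      n.factorial := by
  intro n
  induction n with
  | zero =>
    intro A hA
    have h0 : ∀ i, A i = 0 := by
      intro i
      have := (Finset.sum_eq_zero_iff.1 hA) i (mem_univ i)
      exact this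
    have h1 : (univ.filter (fun w : Fin 0 → Fin k => ∀ i, cnt w i = A i)) = univ := by
      ext w
      simp only [mem_filter, mem_univ, true_and, iff_true]
      intro i
      rw [h0 i, cnt_eq_sum]
      simp
    rw [h1]
    simp [h0]
  | succ n ih =>
    intro A hA
    have hsplit : (univ.filter (fun w : Fin (n + 1) → Fin k => ∀ i, cnt w i = A i)).card =
        ∑ a : Fin k, (univ.filter (fun w : Fin n → Fin k =>
          ∀ i, cnt (Fin.cons a w : Fin (n + 1) → Fin k) i = A i)).card := by
      simp only [card_filter]
      rw [← (Fin.consEquiv (fun _ : Fin (n + 1) => Fin k)).sum_comp, Fintype.sum_prod_type]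
      rfl
    rw [hsplit, sum_mul]
    have hone : ∀ a : Fin k, (univ.filter (fun w : Fin n → Fin k =>
          ∀ i, cnt (Fin.cons a w : Fin (n + 1) → Fin k) i = A i)).card *
            ∏ i, (A i).factorial = n.factorial * A a := by
      intro a
      rcases Nat.eq_zero_or_pos (A a) with h0 | h0
      · have : (univ.filter (fun w : Fin n → Fin k =>
          ∀ i, cnt (Fin.cons a w : Fin (n + 1) → Fin k) i = A i)) = ∅ := by
          rw [filter_eq_empty_iff]
          intro w _ hw
          have := hw a
          rw [cnt_cons, if_pos rfl, h0] at this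
          omega
        rw [this, card_empty, zero_mul, h0, mul_zero]
      · set A' : Fin k → ℕ := Function.update A a (A a - 1) with hA'
        have hset : (univ.filter (fun w : Fin n → Fin k =>
            ∀ i, cnt (Fin.cons a w : Fin (n + 1) → Fin k) i = A i)) =
            (univ.filter (fun w : Fin n → Fin k => ∀ i, cnt w i = A' i)) := by
          ext w
          simp only [mem_filter, mem_univ, true_and]
          refine forall_congr' fun i => ?_
          rw [cnt_cons, hA']
          by_cases hi : a = i
          · subst hi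
            rw [if_pos rfl, Function.update_self]
            omega
          · rw [if_neg hi, Function.update_of_ne (fun h => hi h.symm), zero_add]
        have hsum : ∑ i, A' i = n := by
          have e1 := Finset.add_sum_erase univ A (mem_univ a)
          have e2 := Finset.add_sum_erase univ A' (mem_univ a)
          have e3 : ∑ i ∈ univ.erase a, A' i = ∑ i ∈ univ.erase a, A i := by
            refine sum_congr rfl fun i hi => ?_
            rw [hA', Function.update_of_ne (ne_of_mem_erase hi)]
          have e4 : A' a = A a - 1 := by rw [hA', Function.update_self]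
          omega
        have hprod : ∏ i, (A i).factorial = A a * ∏ i, (A' i).factorial := by
          have e1 := Finset.mul_prod_erase univ (fun i => (A i).factorial) (mem_univ a)
          have e2 := Finset.mul_prod_erase univ (fun i => (A' i).factorial) (mem_univ a)
          have e3 : ∏ i ∈ univ.erase a, (A' i).factorial = ∏ i ∈ univ.erase a, (A i).factorial := by
            refine prod_congr rfl fun i hi => ?_
            rw [hA', Function.update_of_ne (ne_of_mem_erase hi)]
          have e4 : A' a = A a - 1 := by rw [hA', Function.update_self]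
          rw [← e1, ← e2, e3, e4, ← mul_assoc, Nat.mul_factorial_pred h0.ne']
        rw [hset, hprod, mul_comm (A a), ← mul_assoc, ih A' hsum]
    rw [sum_congr rfl fun a _ => hone a, ← mul_sum, hA, Nat.factorial_succ, mul_comm]

theorem t_DEG : S_DEG := by
  intro n k l hl
  have hterm : ∀ τ : Equiv.Perm (Fin k),
      fixW (fun i => (l i : ℤ) - ((τ i : ℕ) : ℤ)) (1 : Equiv.Perm (Fin n)) *
        ∏ i, (((l i).factorial : ℕ) : ℤ) =
      (n.factorial : ℤ) * ∏ i, (((l i).descFactorial (τ i : ℕ) : ℕ) : ℤ) := by
    intro τ
    by_cases hle : ∀ i, (τ i : ℕ) ≤ l i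
    · have hw := words_card (k := k) n (fun i => l i - (τ i : ℕ)) (by
        have e1 : ∑ i, (l i - (τ i : ℕ)) + ∑ i, (τ i : ℕ) = ∑ i, l i := by
          rw [← sum_add_distrib]
          exact sum_congr rfl fun i _ => Nat.sub_add_cancel (hle i)
        have e2 : ∑ i, (τ i : ℕ) = k.choose 2 := by
          rw [Equiv.sum_comp τ (fun i : Fin k => (i : ℕ)), Fin.sum_univ_eq_sum_range (fun i => i) k,
            Finset.sum_range_id, Nat.choose_two_right]
        omega)
      have hfix : fixW (fun i => (l i : ℤ) - ((τ i : ℕ) : ℤ)) (1 : Equiv.Perm (Fin n)) =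
          (((univ.filter (fun w : Fin n → Fin k => ∀ i, cnt w i = l i - (τ i : ℕ))).card : ℕ) : ℤ) := by
        unfold fixW
        congr 2
        ext w
        simp only [mem_filter, mem_univ, true_and, Equiv.Perm.coe_one, id, implies_true, and_true]
        refine forall_congr' fun i => ?_
        have := hle i
        omega
      have hfac : ∏ i, (l i).factorial =
          (∏ i, (l i - (τ i : ℕ)).factorial) * ∏ i, (l i).descFactorial (τ i : ℕ) := by
        rw [← prod_mul_distrib]
        exact prod_congr rfl fun i _ => (Nat.factorial_mul_descFactorial (hle i)).symm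
      rw [hfix, ← Nat.cast_prod, ← Nat.cast_prod, hfac]
      have : ((univ.filter (fun w : Fin n → Fin k => ∀ i, cnt w i = l i - (τ i : ℕ))).card) *
          ((∏ i, (l i - (τ i : ℕ)).factorial) * ∏ i, (l i).descFactorial (τ i : ℕ)) =
          n.factorial * ∏ i, (l i).descFactorial (τ i : ℕ) := by
        rw [← mul_assoc, hw]
      exact_mod_cast this
    · push Not at hle
      obtain ⟨i, hi⟩ := hle
      have h1 : fixW (fun i => (l i : ℤ) - ((τ i : ℕ) : ℤ)) (1 : Equiv.Perm (Fin n)) = 0 := by
        unfold fixW
        rw [Nat.cast_eq_zero, card_eq_zero, filter_eq_empty_iff]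
        intro w _ hw
        have h9 : (cnt w i : ℤ) = (l i : ℤ) - ((τ i : ℕ) : ℤ) := hw.1 i
        omega
      have h2 : ∏ i, (((l i).descFactorial (τ i : ℕ) : ℕ) : ℤ) = 0 := by
        refine prod_eq_zero (mem_univ i) ?_
        rw [Nat.descFactorial_of_lt hi, Nat.cast_zero]
      rw [h1, h2, zero_mul, mul_zero]
  have hdet : ∑ τ : Equiv.Perm (Fin k), (Equiv.Perm.sign τ : ℤ) *
      ∏ i, (((l i).descFactorial (τ i : ℕ) : ℕ) : ℤ) = ∏ i, ∏ j ∈ Ioi i, ((l j : ℤ) - l i) := by
    have h1 := Matrix.det_eval_matrixOfPolynomials_eq_det_vandermonde (fun i : Fin k => (l i : ℤ))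
      (fun i => descPochhammer ℤ i) (fun i => descPochhammer_natDegree ℤ i)
      (fun i => monic_descPochhammer ℤ i)
    rw [Matrix.det_vandermonde] at h1
    rw [h1, ← Matrix.det_transpose, Matrix.det_apply']
    refine sum_congr rfl fun τ _ => ?_
    congr 1
    refine prod_congr rfl fun i _ => ?_
    rw [Matrix.transpose_apply, Matrix.of_apply, descPochhammer_eval_eq_descFactorial]
  unfold vch
  rw [sum_mul, ← hdet, mul_sum]
  refine sum_congr rfl fun τ _ => ?_
  rw [mul_assoc, hterm τ]
  ring

end Run7.h313.ZN
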