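import Pool.Agent.Run7.h601.ZN.Stm

/-!
# Project ZN, piece SIE: the large sieve for beta numbers
-/

set_option autoImplicit false

namespace Run7.h313.ZN.Sie

open Finset
open Pool.Agent.Run7.h601.ZN

lemma sum_mod (g : ℕ → ℤ) (p c : ℕ) (hp : 0 < p) :
    ∑ x ∈ range (p * c), g (x % p) = (c : ℤ) * ∑ j ∈ range p, g j := by
  induction c with
  | zero => simp
  | succ c ih =>
    rw [Nat.mul_succ, Finset.sum_range_add, ih]
    have : ∑ x ∈ range p, g ((p * c + x) % p) = ∑ j ∈ range p, g j := by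
      refine sum_congr rfl fun j hj => ?_
      rw [Nat.mul_add_mod, Nat.mod_eq_of_lt (mem_range.1 hj)]
    rw [this]
    push_cast
    ring

lemma sum_fib {k : ℕ} (l : Fin k → ℕ) (g : ℕ → ℤ) (p : ℕ) (hp : 0 < p) :
    ∑ a, g (l a % p) =
      ∑ j ∈ range p, (((univ.filter (fun a => l a % p = j)).card : ℕ) : ℤ) * g j := by
  have h1 : ∀ a, g (l a % p) = ∑ j ∈ range p, if l a % p = j then g j else 0 := by
    intro a
    rw [sum_ite_eq, if_pos (mem_range.2 (Nat.mod_lt _ hp))]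
  rw [sum_congr rfl fun a _ => h1 a, sum_comm]
  refine sum_congr rfl fun j _ => ?_
  rw [← sum_filter, sum_const, nsmul_eq_mul]

lemma sum_cc {k : ℕ} (l : Fin k → ℕ) (p : ℕ) (hp : 0 < p) (hk : p ∣ k) :
    ∑ j ∈ range p, cc p l j = 0 := by
  have h1 := sum_fib l (fun _ => 1) p hp
  simp only [sum_const, card_univ, Fintype.card_fin, nsmul_eq_mul, mul_one] at h1
  unfold cc
  rw [sum_sub_distrib, ← h1, sum_const, card_range, nsmul_eq_mul]
  have h2 : p * (k / p) = k := Nat.mul_div_cancel' hk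
  have h3 : (p : ℤ) * ((k / p : ℕ) : ℤ) = k := by exact_mod_cast h2
  rw [h3, sub_self]

theorem t_SIE : S_SIE := by
  intro hPER hORG P n k l hP hdk hl hsum
  set M : ℕ := ∏ p ∈ P, p with hM
  have hMpos : 0 < M := prod_pos fun p hp => (hP p hp).pos
  have hpM : ∀ p ∈ P, p ∣ M := fun p hp => dvd_prod_of_mem _ hp
  have hpk : ∀ p ∈ P, p ∣ k := fun p hp => (hpM p hp).trans hdk
  set F : ℕ → ℤ := fun x => ∑ p ∈ P, (p : ℤ) * cc p l (x % p) with hF
  set D : ℤ := ∑ p ∈ P, (p : ℤ) * dd p l with hD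
  obtain ⟨Q, hQk, hQl⟩ : ∃ Q : ℕ, k ≤ Q * M ∧ ∀ a, l a < Q * M := by
    refine ⟨k + ∑ a, l a + 1, ?_, fun a => ?_⟩
    · nlinarith [Nat.zero_le (∑ a, l a)]
    · have h1 : l a ≤ ∑ a, l a := single_le_sum (fun _ _ => Nat.zero_le _) (mem_univ a)
      nlinarith
  set R : Finset ℕ := univ.image l with hR
  have hRsub : R ⊆ range (Q * M) := by
    intro x hx
    rw [hR, mem_image] at hx
    obtain ⟨a, _, rfl⟩ := hx
    exact mem_range.2 (hQl a)
  set s : ℕ → ℤ := fun x => (if x ∈ R then 1 else 0) - (if x < k then 1 else 0) with hs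
  have hsumS : ∀ g : ℕ → ℤ, ∑ x ∈ range (Q * M), s x * g x =
      ∑ a, g (l a) - ∑ x ∈ range k, g x := by
    intro g
    have h1 : ∀ x, s x * g x = (if x ∈ R then g x else 0) - (if x < k then g x else 0) := by
      intro x
      simp only [hs]
      split_ifs <;> ring
    rw [sum_congr rfl fun x _ => h1 x, sum_sub_distrib]
    congr 1
    · rw [← sum_filter, filter_mem_eq_inter, inter_eq_right.2 hRsub, hR,
        sum_image fun a _ b _ h => hl.injective h]
    · rw [← sum_filter]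
      refine sum_congr ?_ fun _ _ => rfl
      ext x
      rw [mem_filter, mem_range, mem_range]
      omega
  -- first identity
  have hDs : D = ∑ x ∈ range (Q * M), s x * F x := by
    rw [hsumS]
    have e1 : ∑ a, F (l a) = ∑ p ∈ P, (p : ℤ) *
        ∑ j ∈ range p, (((univ.filter (fun a => l a % p = j)).card : ℕ) : ℤ) * cc p l j := by
      simp only [hF]
      rw [sum_comm]
      refine sum_congr rfl fun p hp => ?_
      rw [← mul_sum, sum_fib l (fun j => cc p l j) p (hP p hp).pos]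
    have e2 : ∑ x ∈ range k, F x = ∑ p ∈ P, (p : ℤ) *
        (((k / p : ℕ) : ℤ) * ∑ j ∈ range p, cc p l j) := by
      simp only [hF]
      rw [sum_comm]
      refine sum_congr rfl fun p hp => ?_
      rw [← mul_sum, ← sum_mod (fun j => cc p l j) p (k / p) (hP p hp).pos,
        Nat.mul_div_cancel' (hpk p hp)]
    rw [e1, e2, ← sum_sub_distrib, hD]
    refine sum_congr rfl fun p _ => ?_
    rw [← mul_sub, mul_sum, ← sum_sub_distrib]
    congr 1
    unfold dd
    refine sum_congr rfl fun j _ => ?_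
    rw [← sub_mul, sq]
    rfl
  -- second identity
  have h2n : ∑ x ∈ range (Q * M), s x * (2 * (x : ℤ) + 1 - 2 * k) = 2 * n := by
    rw [hsumS (fun x => 2 * (x : ℤ) + 1 - 2 * k)]
    have e1 : ∑ a : Fin k, (2 * ((l a : ℕ) : ℤ) + 1 - 2 * k) =
        2 * (n + (k.choose 2 : ℕ)) + k - 2 * k * k := by
      rw [sum_sub_distrib, sum_add_distrib, ← mul_sum, ← Nat.cast_sum, hsum]
      simp
      ring
    have e2 : ∑ x ∈ range k, (2 * (x : ℤ) + 1 - 2 * k) =
        2 * (k.choose 2 : ℕ) + k - 2 * k * k := by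
      rw [sum_sub_distrib, sum_add_distrib, ← mul_sum, ← Nat.cast_sum, Finset.sum_range_id,
        ← Nat.choose_two_right]
      simp
      ring
    rw [e1, e2]
    ring
  have hsign : ∀ x, s x * (2 * (x : ℤ) + 1 - 2 * k) = |s x| * |2 * (x : ℤ) + 1 - 2 * k| := by
    intro x
    rw [← abs_mul]
    symm
    apply abs_of_nonneg
    simp only [hs]
    by_cases hxk : x < k
    · have h1 : 2 * (x : ℤ) + 1 - 2 * k ≤ 0 := by omega
      rw [if_pos hxk]
      split_ifs
      · simp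
      · linarith
    · have h1 : 0 ≤ 2 * (x : ℤ) + 1 - 2 * k := by omega
      rw [if_neg hxk]
      split_ifs
      · linarith
      · simp
  have hs1 : ∀ x, |s x| ≤ 1 := by
    intro x
    simp only [hs]
    split_ifs <;> simp
  -- the main inequality
  have hmain : D ≤ 2 * n + ∑ x ∈ range (Q * M), max (|F x| - |2 * (x : ℤ) + 1 - 2 * k|) 0 := by
    rw [hDs, ← h2n, ← sum_add_distrib]
    refine sum_le_sum fun x _ => ?_
    rw [hsign x]
    have h1 : s x * F x ≤ |s x| * |F x| := by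
      rw [← abs_mul]; exact le_abs_self _
    have h2 : |s x| * (|F x| - |2 * (x : ℤ) + 1 - 2 * k|) ≤
        max (|F x| - |2 * (x : ℤ) + 1 - 2 * k|) 0 := by
      have h3 := hs1 x
      have h4 := abs_nonneg (s x)
      calc |s x| * (|F x| - |2 * (x : ℤ) + 1 - 2 * k|)
          ≤ |s x| * max (|F x| - |2 * (x : ℤ) + 1 - 2 * k|) 0 :=
            mul_le_mul_of_nonneg_left (le_max_left _ _) h4
        _ ≤ 1 * max (|F x| - |2 * (x : ℤ) + 1 - 2 * k|) 0 :=
            mul_le_mul_of_nonneg_right h3 (le_max_right _ _)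
        _ = _ := one_mul _
    nlinarith
  have hper : ∀ x, F (x + M) = F x := by
    intro x
    simp only [hF]
    refine sum_congr rfl fun p hp => ?_
    obtain ⟨c, hc⟩ := hpM p hp
    rw [hc, Nat.add_mul_mod_self_left]
  have hP1 := hPER F M k Q hMpos hdk hper
  have hO1 := hORG P (fun p j => cc p l j) hP (fun p hp => sum_cc l p (hP p hp).pos (hpk p hp))
  have hO2 : ∑ x ∈ range M, F x ^ 2 = (M : ℤ) * D := by
    simp only [hF, hD]
    exact hO1
  have hMz : (0 : ℤ) < M := by exact_mod_cast hMpos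
  rw [sum_add_distrib, ← mul_sum] at hP1
  have hF1 : 8 * (M : ℤ) * ∑ r ∈ range M, |F r| ≤ (M : ℤ) * D + 16 * (M : ℤ) ^ 3 := by
    have h1 : ∑ r ∈ range M, 8 * (M : ℤ) * |F r| ≤ ∑ r ∈ range M, (F r ^ 2 + 16 * (M : ℤ) ^ 2) := by
      refine sum_le_sum fun r _ => ?_
      have h2 : F r ^ 2 = |F r| ^ 2 := (sq_abs _).symm
      nlinarith [sq_nonneg (|F r| - 4 * (M : ℤ))]
    rw [← mul_sum, sum_add_distrib, hO2, sum_const, card_range, nsmul_eq_mul] at h1
    calc _ ≤ _ := h1
      _ = _ := by ring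
  have hP2 : 2 * (M : ℤ) * (D - 2 * n) ≤ 2 * (M : ℤ) *
      ∑ x ∈ range (Q * M), max (|F x| - |2 * (x : ℤ) + 1 - 2 * k|) 0 :=
    mul_le_mul_of_nonneg_left (by linarith) (by positivity)
  have hP3 : ∑ r ∈ range M, 4 * (M : ℤ) * |F r| = 4 * (M : ℤ) * ∑ r ∈ range M, |F r| := by
    rw [mul_sum]
  have hfin : (M : ℤ) * D ≤ (M : ℤ) * (8 * n + 16 * (M : ℤ) ^ 2) := by
    have h4 : 2 * (M : ℤ) * (D - 2 * n) ≤
        4 * (M : ℤ) * ∑ r ∈ range M, |F r| + (M : ℤ) * D := by
      calc 2 * (M : ℤ) * (D - 2 * n) ≤ _ := hP2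
        _ ≤ _ := hP1
        _ = _ := by rw [← hO2]
    nlinarith
  have := le_of_mul_le_mul_left hfin hMz
  exact this

end Run7.h313.ZN.Sie
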