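import Pool.Agent.Run7.h601.ZN.Stm

/-!
# Project ZN, piece SPN: permutation characters are integral combinations of the virtual
characters attached to partitions
-/

set_option autoImplicit false

namespace Run7.h313.ZN.Spn

open Finset
open Pool.Agent.Run7.h601.ZN

lemma cnt_eq_sum {n : ℕ} {ι : Type} [DecidableEq ι] (w : Fin n → ι) (i : ι) :
    cnt w i = ∑ x, if w x = i then 1 else 0 := by
  unfold cnt; rw [card_filter]

lemma sum_cnt {n : ℕ} {k : ℕ} (w : Fin n → Fin k) : ∑ i, cnt w i = n := by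
  simp only [cnt_eq_sum]
  rw [sum_comm]
  simp

lemma fixW_neg {n k : ℕ} {α : Fin k → ℤ} {i : Fin k} (hi : α i < 0)
    (σ : Equiv.Perm (Fin n)) : fixW α σ = 0 := by
  unfold fixW
  rw [Nat.cast_eq_zero, card_eq_zero, filter_eq_empty_iff]
  intro w _ hw
  have := hw.1 i
  omega

lemma fixW_sum {n k : ℕ} {α : Fin k → ℤ} (h : ∑ i, α i ≠ n)
    (σ : Equiv.Perm (Fin n)) : fixW α σ = 0 := by
  unfold fixW
  rw [Nat.cast_eq_zero, card_eq_zero, filter_eq_empty_iff]
  intro w _ hw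
  apply h
  rw [← sum_congr rfl fun i _ => hw.1 i, ← Nat.cast_sum, sum_cnt]

lemma cnt_perm {n k : ℕ} (ρ : Equiv.Perm (Fin k)) (w : Fin n → Fin k) (i : Fin k) :
    cnt (fun x => ρ.symm (w x)) i = cnt w (ρ i) := by
  unfold cnt
  congr 1
  ext x
  simp only [mem_filter, mem_univ, true_and]
  exact Equiv.symm_apply_eq ρ

lemma fixW_perm {n k : ℕ} (α : Fin k → ℤ) (ρ : Equiv.Perm (Fin k)) (σ : Equiv.Perm (Fin n)) :
    fixW (fun i => α (ρ i)) σ = fixW α σ := by
  unfold fixW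
  congr 1
  symm
  refine Finset.card_bij' (fun w _ => fun x => ρ.symm (w x)) (fun w _ => fun x => ρ (w x))
    ?_ ?_ ?_ ?_
  · intro w hw
    rw [mem_filter] at hw ⊢
    refine ⟨mem_univ _, fun i => ?_, fun x => ?_⟩
    · rw [cnt_perm]; exact hw.2.1 (ρ i)
    · simp only
      rw [hw.2.2 x]
  · intro w hw
    rw [mem_filter] at hw ⊢
    refine ⟨mem_univ _, fun i => ?_, fun x => ?_⟩
    · have h1 := cnt_perm ρ (fun x => ρ (w x)) (ρ.symm i)
      simp only [Equiv.symm_apply_apply, Equiv.apply_symm_apply] at h1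
      have h2 := hw.2.1 (ρ.symm i)
      simp only [Equiv.apply_symm_apply] at h2
      rw [← h1]; exact h2
    · simp only
      rw [hw.2.2 x]
  · intro w _
    funext x
    simp
  · intro w _
    funext x
    simp

/-- the set of virtual characters -/
def SS (n k : ℕ) : Set (Equiv.Perm (Fin n) → ℤ) :=
  {f : Equiv.Perm (Fin n) → ℤ | ∃ l : Fin k → ℤ, StrictMono l ∧ (∀ i, 0 ≤ l i) ∧
      ∑ i, l i = n + (k.choose 2 : ℕ) ∧ f = fun σ => vch l σ}

lemma sum_id (k : ℕ) : ∑ i : Fin k, ((i : ℕ) : ℤ) = (k.choose 2 : ℕ) := by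
  rw [← Nat.cast_sum, Fin.sum_univ_eq_sum_range (fun i => i) k, Finset.sum_range_id,
    Nat.choose_two_right]

lemma sq_grow {k : ℕ} (α : Fin k → ℤ) (hm : Monotone α) (τ : Equiv.Perm (Fin k)) (hτ : τ ≠ 1) :
    ∑ i, α i ^ 2 < ∑ i : Fin k, (α i + ((i : ℕ) : ℤ) - ((τ i : ℕ) : ℤ)) ^ 2 := by
  have h1 : ∑ i : Fin k, (α i + ((i : ℕ) : ℤ) - ((τ i : ℕ) : ℤ)) ^ 2 = ∑ i, α i ^ 2 +
      2 * (∑ i, α i * ((i : ℕ) : ℤ) - ∑ i, α i * ((τ i : ℕ) : ℤ)) +
      ∑ i : Fin k, (((i : ℕ) : ℤ) - ((τ i : ℕ) : ℤ)) ^ 2 := by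
    rw [← sum_sub_distrib, mul_sum, ← sum_add_distrib, ← sum_add_distrib]
    exact sum_congr rfl fun i _ => by ring
  have hg : Monotone (fun i : Fin k => ((i : ℕ) : ℤ)) := by
    intro a b hab
    have : (a : ℕ) ≤ (b : ℕ) := hab
    simp only
    exact_mod_cast this
  have h2 : ∑ i, α i * ((τ i : ℕ) : ℤ) ≤ ∑ i, α i * ((i : ℕ) : ℤ) :=
    (hm.monovary hg).sum_mul_comp_perm_le_sum_mul
  have h3 : 0 < ∑ i : Fin k, (((i : ℕ) : ℤ) - ((τ i : ℕ) : ℤ)) ^ 2 := by
    obtain ⟨i, hi⟩ : ∃ i, τ i ≠ i := by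
      by_contra hcon
      push Not at hcon
      exact hτ (Equiv.ext hcon)
    refine sum_pos' (fun j _ => sq_nonneg _) ⟨i, mem_univ i, ?_⟩
    have : ((i : ℕ) : ℤ) - ((τ i : ℕ) : ℤ) ≠ 0 := by
      intro h
      apply hi
      apply Fin.ext
      omega
    positivity
  rw [h1]
  linarith

lemma key (n k : ℕ) (N : ℕ) : ∀ α : Fin k → ℤ, (∀ i, 0 ≤ α i) → ∑ i, α i = n →
    (n : ℤ) ^ 2 - ∑ i, α i ^ 2 < N →
    (fun σ : Equiv.Perm (Fin n) => fixW α σ) ∈ Submodule.span ℤ (SS n k) := by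
  induction N with
  | zero =>
    intro α h0 hs hN
    exfalso
    have h1 : ∑ i, α i ^ 2 ≤ (∑ i, α i) ^ 2 := by
      exact Finset.sum_sq_le_sq_sum_of_nonneg (fun i _ => h0 i)
    rw [hs] at h1
    push_cast at hN
    linarith
  | succ N ih =>
    intro α0 h00 hs0 hN0
    -- sort
    set ρ := Tuple.sort α0 with hρ
    set α : Fin k → ℤ := fun i => α0 (ρ i) with hα
    have hm : Monotone α := Tuple.monotone_sort α0
    have h0 : ∀ i, 0 ≤ α i := fun i => h00 _
    have hs : ∑ i, α i = n := by rw [← hs0]; exact Equiv.sum_comp ρ α0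
    have hsq : ∑ i, α i ^ 2 = ∑ i, α0 i ^ 2 := Equiv.sum_comp ρ (fun i => α0 i ^ 2)
    have hfix : (fun σ : Equiv.Perm (Fin n) => fixW α0 σ) = fun σ => fixW α σ := by
      funext σ; exact (fixW_perm α0 ρ σ).symm
    rw [hfix]
    rw [← hsq] at hN0
    set l : Fin k → ℤ := fun i => α i + ((i : ℕ) : ℤ) with hl
    have hlS : StrictMono l := by
      intro a b hab
      have h1 := hm hab.le
      have h2 : ((a : ℕ) : ℤ) < ((b : ℕ) : ℤ) := by exact_mod_cast hab
      simp only [hl]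
      linarith
    have hl0 : ∀ i, 0 ≤ l i := fun i => by
      have := h0 i
      simp only [hl]
      positivity
    have hlsum : ∑ i, l i = n + (k.choose 2 : ℕ) := by
      simp only [hl]
      rw [sum_add_distrib, hs, sum_id]
    have hv : (fun σ : Equiv.Perm (Fin n) => vch l σ) ∈ Submodule.span ℤ (SS n k) :=
      Submodule.subset_span ⟨l, hlS, hl0, hlsum, rfl⟩
    have hrest : ∀ τ : Equiv.Perm (Fin k), τ ≠ 1 →
        (fun σ : Equiv.Perm (Fin n) => fixW (fun i => l i - ((τ i : ℕ) : ℤ)) σ) ∈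
          Submodule.span ℤ (SS n k) := by
      intro τ hτ
      by_cases hneg : ∃ i, l i - ((τ i : ℕ) : ℤ) < 0
      · obtain ⟨i, hi⟩ := hneg
        have : (fun σ : Equiv.Perm (Fin n) => fixW (fun i => l i - ((τ i : ℕ) : ℤ)) σ) = 0 := by
          funext σ
          exact fixW_neg (i := i) hi σ
        rw [this]
        exact Submodule.zero_mem _
      · push Not at hneg
        refine ih _ hneg ?_ ?_
        · rw [sum_sub_distrib, hlsum, Equiv.sum_comp τ (fun i : Fin k => ((i : ℕ) : ℤ)), sum_id]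
          ring
        · have := sq_grow α hm τ hτ
          push_cast at hN0
          simp only [hl]
          linarith
    have hsum : (fun σ : Equiv.Perm (Fin n) => fixW α σ) =
        (fun σ : Equiv.Perm (Fin n) => vch l σ) -
          ∑ τ ∈ (univ : Finset (Equiv.Perm (Fin k))).erase 1, (Equiv.Perm.sign τ : ℤ) •
            (fun σ : Equiv.Perm (Fin n) => fixW (fun i => l i - ((τ i : ℕ) : ℤ)) σ) := by
      funext σ
      rw [Pi.sub_apply, Finset.sum_apply]
      unfold vch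
      rw [← Finset.add_sum_erase univ _ (mem_univ (1 : Equiv.Perm (Fin k)))]
      have e1 : (fun i : Fin k => l i - (((1 : Equiv.Perm (Fin k)) i : ℕ) : ℤ)) = α := by
        funext i
        simp [hl]
      rw [e1]
      simp
    rw [hsum]
    refine Submodule.sub_mem _ hv (Submodule.sum_mem _ fun τ hτ => ?_)
    exact Submodule.smul_mem _ _ (hrest τ (ne_of_mem_erase hτ))

theorem t_SPN : S_SPN := by
  intro n k α
  change _ ∈ Submodule.span ℤ (SS n k)
  by_cases hneg : ∃ i, α i < 0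
  · obtain ⟨i, hi⟩ := hneg
    have : (fun σ : Equiv.Perm (Fin n) => fixW α σ) = 0 := by
      funext σ
      exact fixW_neg hi σ
    rw [this]
    exact Submodule.zero_mem _
  · push Not at hneg
    by_cases hs : ∑ i, α i = n
    · refine key n k ((n : ℤ) ^ 2 - ∑ i, α i ^ 2 + 1).toNat α hneg hs ?_
      have := Int.self_le_toNat ((n : ℤ) ^ 2 - ∑ i, α i ^ 2 + 1)
      linarith
    · have : (fun σ : Equiv.Perm (Fin n) => fixW α σ) = 0 := by
        funext σ
        exact fixW_sum hs σ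
      rw [this]
      exact Submodule.zero_mem _

end Run7.h313.ZN.Spn
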